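import Pool.Agent.H795R3.PeriodFam

/-!
# MP_290158_ag: a degree-one relation outside the Hodge locus

For a number field `K` and `c > 0` in `K` let `E_c : y² = x (x - 1) (x + c)` and
`E_c^{(s)} : s y² = x (x - 1) (x + c)`. The abelian surfaces `A_s = E_c × E_c^{(s)}` form a smooth
projective family over `S = 𝔾_m`, defined over `K`. We take `j = 1`. All fibres have isomorphic
Hodge structures, so the Hodge locus is empty. At every point `s₀ = r²` with `r` in the field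
`κ(s₀) = K(s₀)` (for instance `s₀ = 1` and `K = ℚ`) there is a relation of degree one over `κ(s₀)`.
-/

namespace Pool.Agent.Results.MP_290158_ag.LinearRelation

open Pool.Agent.H795R3.PeriodFam

/-- The field of definition `κ(s) = K(s)` of the point `s` of `𝔾_m`. -/
noncomputable abbrev kap (K : IntermediateField ℚ ℂ) (s : ℂ) : IntermediateField K ℂ :=
  IntermediateField.adjoin K {s}

/-- `Z` admits a relation of degree at most `δ` over `κ(s)`: a polynomial in the matrix entries,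
with coefficients in `κ(s)` and total degree at most `δ`, that vanishes on `Z` but not on `B`. -/
def HasRelation {ι : Type} (K : IntermediateField ℚ ℂ) (s : ℂ) (δ : ℕ)
    (Z B : Set (Matrix (Fin 4) ι ℂ)) : Prop :=
  ∃ F : MvPolynomial (Fin 4 × ι) (kap K s), F.totalDegree ≤ δ ∧
    (∀ M ∈ Z, MvPolynomial.aeval (fun ij : Fin 4 × ι => M ij.1 ij.2) F = 0) ∧
    ∃ M ∈ B, MvPolynomial.aeval (fun ij : Fin 4 × ι => M ij.1 ij.2) F ≠ 0

theorem isAlgebraic_kap (K : IntermediateField ℚ ℂ) [FiniteDimensional ℚ K] {s : ℂ}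
    (hs : IsAlgebraic ℚ s) (x : kap K s) : IsAlgebraic ℚ (x : ℂ) := by
  have h1 : Algebra.IsAlgebraic ℚ K := Algebra.IsAlgebraic.of_finite ℚ K
  have hs' : IsIntegral K s := (hs.tower_top K).isIntegral
  have h2 : Algebra.IsAlgebraic K (kap K s) :=
    IntermediateField.isAlgebraic_adjoin (fun y hy => by
      rw [Set.mem_singleton_iff] at hy
      rw [hy]
      exact hs')
  have h3 : Algebra.IsAlgebraic ℚ (kap K s) := Algebra.IsAlgebraic.trans ℚ K (kap K s)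
  exact (h3.isAlgebraic x).algebraMap

theorem hasRelation {ι : Type} (K : IntermediateField ℚ ℂ) [FiniteDimensional ℚ K]
    {Y : Set (Matrix (Fin 4) ι ℂ)} (hY : ∀ ρ : ℂ, ρ ≠ 0 → ∀ M ∈ Y, Dm ρ M ∈ Y)
    {c : ℝ} (hc : 0 < c) {δ : ℕ} (hδ : 1 ≤ δ) {r : ℂ} (hr : r ≠ 0) (ha : IsAlgebraic ℚ r)
    (hrk : r ∈ kap K (r ^ 2)) {γ : ι → ℝ → Pt} (h : Generates c (r ^ 2) γ) (hM : perMat γ ∈ Y)
    {G : Set (ℂ × Matrix (Fin 4) ι ℂ)}
    (hG : graph (Metric.ball (r ^ 2) ‖r ^ 2‖) (frame (r ^ 2) γ) ⊆ G) :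
    HasRelation K (r ^ 2) δ (ptClosure Y (perMat γ)) {M | (r ^ 2, M) ∈ BVar Y G} := by
  have h0 : r ^ 2 ≠ 0 := pow_ne_zero 2 hr
  have ha2 : IsAlgebraic ℚ (r ^ 2) := ha.pow 2
  obtain ⟨F, hdeg, hF1, hF2⟩ := exists_relation hc hr h (kap K (r ^ 2)) ⟨r, hrk⟩ rfl
  refine ⟨F, hdeg.trans hδ, ?_, ?_⟩
  · intro M hMc
    let φ : kap K (r ^ 2) →+* Qbar :=
      (algebraMap (kap K (r ^ 2)) ℂ).codRestrict Qbar
        (fun x => mem_algebraicClosure_iff.mpr (isAlgebraic_kap K ha2 x))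
    have hφ : ∀ N : Matrix (Fin 4) ι ℂ, ev₀ (MvPolynomial.map φ F) N =
        MvPolynomial.aeval (fun ij : Fin 4 × ι => N ij.1 ij.2) F := by
      intro N
      unfold ev₀
      rw [MvPolynomial.aeval_def, MvPolynomial.eval₂_map, MvPolynomial.aeval_def]
      rfl
    have h1 := hMc {N | N ∈ Y ∧ ev₀ (MvPolynomial.map φ F) N = 0}
      ⟨⟨{MvPolynomial.map φ F}, ?_⟩, hM, ?_⟩
    · rw [← hφ]
      exact h1.2
    · ext N
      simp
    · rw [hφ]
      exact hF1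
  · exact ⟨_, other_mem hY h0 hM hG, hF2⟩

theorem result (K : IntermediateField ℚ ℂ) [FiniteDimensional ℚ K] (c : ℝ) (hc : 0 < c)
    (_hcK : (c : ℂ) ∈ K) (δ : ℕ) (hδ : 1 ≤ δ) :
    (∀ s s' : ℂ, s ≠ 0 → s' ≠ 0 → HodgeIso c s s') ∧
    ∀ s₀ r : ℂ, s₀ ≠ 0 → IsAlgebraic ℚ s₀ → r ^ 2 = s₀ → r ∈ kap K s₀ →
      (∀ γ : Fin 4 → ℝ → Pt, Generates c s₀ γ → perMat γ ∈ GL4 →
        ∃ Γ : ℂ → Fin 4 → ℝ → Pt, Γ s₀ = γ ∧ IsLocalFrame c GL4 (Metric.ball s₀ ‖s₀‖) Γ ∧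
          ∀ G, graph (Metric.ball s₀ ‖s₀‖) Γ ⊆ G →
            HasRelation K s₀ δ (ptClosure GL4 (perMat (Γ s₀))) {M | (s₀, M) ∈ BVar GL4 G}) ∧
      (∀ (ι : Type) (γ : ι → ℝ → Pt), Generates c s₀ γ →
        ∃ Γ : ℂ → ι → ℝ → Pt, Γ s₀ = γ ∧
          IsLocalFrame c Set.univ (Metric.ball s₀ ‖s₀‖) Γ ∧
          ∀ G, graph (Metric.ball s₀ ‖s₀‖) Γ ⊆ G →
            HasRelation K s₀ δ (ptClosure Set.univ (perMat (Γ s₀)))
              {M | (s₀, M) ∈ BVar Set.univ G}) ∧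
      (∃ (ι : Type) (γ : ι → ℝ → Pt), Generates c s₀ γ) := by
  refine ⟨fun s s' hs hs' => hodgeIso_all _ hs hs', ?_⟩
  rintro s₀ r h0 ha rfl hrk
  have hr : r ≠ 0 := by
    rintro rfl
    apply h0
    norm_num
  have har : IsAlgebraic ℚ r := IsAlgebraic.of_pow (n := 2) (by norm_num) ha
  refine ⟨?_, ?_, ?_⟩
  · intro γ h hM
    refine ⟨frame (r ^ 2) γ, frame_self h0 γ, isLocalFrame_frame GL4_stable h0 h hM, ?_⟩
    intro G hG
    rw [frame_self h0]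
    exact hasRelation K GL4_stable hc hδ hr har hrk h hM hG
  · intro ι γ h
    have hY : ∀ ρ : ℂ, ρ ≠ 0 → ∀ M ∈ (Set.univ : Set (Matrix (Fin 4) ι ℂ)), Dm ρ M ∈ Set.univ :=
      fun _ _ _ _ => Set.mem_univ _
    refine ⟨frame (r ^ 2) γ, frame_self h0 γ, isLocalFrame_frame hY h0 h (Set.mem_univ _), ?_⟩
    intro G hG
    rw [frame_self h0]
    exact hasRelation K hY hc hδ hr har hrk h (Set.mem_univ _) hG
  · refine ⟨{γ : ℝ → Pt // IsLoop c (r ^ 2) γ}, fun γ => γ.1, fun γ => γ.2, ?_⟩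
    unfold Lam
    congr 1
    ext v
    constructor
    · rintro ⟨γ, rfl⟩
      exact ⟨γ.1, γ.2, rfl⟩
    · rintro ⟨γ, h, rfl⟩
      exact ⟨⟨γ, h⟩, rfl⟩

end Pool.Agent.Results.MP_290158_ag.LinearRelation
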